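import Pool.Agent.T2H06.AUT.Trans
import Pool.Agent.T2H06.AUT.L1
import Pool.Agent.T2H06.AUT.L2
import Pool.Agent.T2H06.AUT.Red
import Pool.Agent.T2H06.AUT.S
import Pool.Agent.T2H06.AUT.S2
import Pool.Agent.T2H06.AUT.Eis
import Pool.Agent.T2H06.AUT.Cusp
import Pool.Agent.T2H06.AUT.G1
import Pool.Agent.T2H06.AUT.G2
import Pool.Agent.T2H06.AUT.G3
import Pool.Agent.T2H06.AUT.FF
import Pool.Agent.T2H06.AUT.U

/-!
# Q1 of MP_5ae62c_nt is false

The group is `GL₂` over `F = K_∞ = 𝔽₂((1/t))`, `K = 𝔽₂(t)`, split, `L = F`, `Γ = 1`, and `ρ` is the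
standard representation of the dual group `GL₂(ℂ)`; the unramified lifting is the identity. All
definitions are in `Pool/Agent/T2H06/AUT/Gen.lean` and `RepDefs.lean`.
-/

set_option autoImplicit false

open Pool.Agent.T2H06.AUT Pool.Agent.T2H06.AUT.Gen in
/-- Q1 is false for `F = 𝔽₂((1/t))`, `G = GL₂` and `ρ` the standard representation: there is no local
lifting map at the place `∞` of `K = 𝔽₂(t)`. The explicit counterexample: an automorphic
representation `π` with trivial components at all finite places, and a cuspidal automorphic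
representation `π'`, with the same component at `∞`. -/
theorem Pool.Agent.Results.MP_5ae62c_nt.NoLocalLifting.result :
    NoLiftingMap F2t Gen.Place.inf ∧ ExplicitCounterexample F2t Gen.Place.inf ∧
      AdeleQuotientFinite F2t ∧ LocalComponentUnique F2t := by
  have hE : E1Stmt := e1 s1 s2 r1 r2
  have hC : C1Stmt := c1 d1 s2 s4
  have hG1 : G1Stmt := g1 l1 d1
  have hG2 : G2Stmt := g2 l1 d1 s4
  have hG3 : G3Stmt := g3 s3
  have h : NoLiftingMap Trans.D0 Gen.Place.inf ∧ ExplicitCounterexample Trans.D0 Gen.Place.inf ∧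
      AdeleQuotientFinite Trans.D0 ∧ LocalComponentUnique Trans.D0 :=
    ⟨Trans.noLiftingMap (final l1 l2 d1 hG2 hG3 hG1 hE hC),
      Trans.explicitCounterexample (explicit l1 l2 d1 hG2 hG3 hG1 hE hC),
      Trans.adeleQuotientFinite f1, Trans.localComponentUnique u1⟩
  have key : ∀ D : AdelicData, D = Trans.D0 → ∀ p : D.P, HEq p (Gen.Place.inf : Trans.D0.P) →
      NoLiftingMap D p ∧ ExplicitCounterexample D p ∧ AdeleQuotientFinite D ∧
        LocalComponentUnique D := by
    rintro D rfl p hp
    rw [eq_of_heq hp]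
    exact h
  exact key F2t Trans.F2t_eq Gen.Place.inf HEq.rfl
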